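import Pool.Agent.Lib.MP_0d9445_pr.Fin.Aut
import Pool.Agent.Lib.MP_0d9445_pr.Fin.Geo
import Pool.Agent.Lib.MP_0d9445_pr.Lay.Final

open MeasureTheory ProbabilityTheory Set Filter Topology
open scoped NNReal ENNReal
open Pool.Agent.Lib.MP_0d9445_pr Pool.Agent.Lib.MP_0d9445_pr.BM Pool.Agent.Lib.MP_0d9445_pr.Walk

namespace Pool.Agent.Results.MP_0d9445_pr.VoronoiLBM

theorem result (γ ξ : ℝ) (hγ : 0 < γ) (hγ2 : γ < 2) (hξ : 0 < ξ)
    (D : Field → Met) (μ : Field → Measure ℂ)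
    (hD : IsLQGMetric ξ (2 / γ + γ / 2) D) (hμ : IsLQGMeasure γ μ) :
    ∃ τ : ℝ≥0 → ℝ, (∀ l, 0 < τ l) ∧
      ∀ (Ω : Type) [MeasurableSpace Ω] (P : Measure Ω) [IsProbabilityMeasure P]
        (h : Ω → Field) (f : Ω → ℂ → ℝ) (O : Set ℂ) (d : Ω → Met) (m : Ω → Measure ℂ)
        (Y : ℝ≥0 → Ω → Set ℂ),
        (IsCone γ (2 / γ + γ / 2) P h f ∧ O = univ ∧ IsSurf γ ξ D μ {0} P h f d m ∨
          IsSphere γ (2 / γ + γ / 2) μ P h f ∧ O = univ ∧ IsSurf γ ξ D μ {0, 1} P h f d m ∨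
          IsWedge γ (2 / γ + γ / 2) P h f ∧ O = UH ∧ IsSurfVia γ ξ D μ id O P h f d m ∨
          (∃ ℓ > 0, IsDisk γ (2 / γ + γ / 2) ℓ P h f) ∧ O = Metric.ball 0 1 ∧
            IsSurfVia γ ξ D μ cayley O P h f d m ∨
          (∃ ℓ > 0, ∃ a > 0, IsDiskArea γ ξ (2 / γ + γ / 2) D μ ℓ a P d m) ∧
            O = Metric.ball 0 1) →
        (∀ l, IsPPP P d m l (Y l)) →
        ∀ l : ℕ → ℝ≥0, Tendsto l atTop atTop →
          ∃ φ : ℕ → ℕ, StrictMono φ ∧ ∀ᵐ ω ∂P,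
            ∀ (ψ : ℂ → ℂ) (d' : Met) (m' : Measure ℂ) (V : ℕ → Set ℂ) (t : ℕ → ℝ),
              IsAut O ψ → (∀ x ∈ closure O, ∀ y ∈ closure O, d' (ψ x, ψ y) = d ω (x, y)) →
              m' = (m ω).map ψ → (∀ n, V n = ψ '' Y (l (φ n)) ω) → (∀ n, t n = τ (l (φ n))) →
              ∀ W : Measure Path, IsWiener W → (∃ A, PCAF W m' A) ∧ ∀ A, PCAF W m' A →
                ∀ z ∈ O, ∀ (y x : ℕ → ℂ) (e : ℕ → ℂ → ℂ → ℝ → ℂ), Tendsto y atTop (𝓝 z) →
                  (∀ᶠ n in atTop, x n ∈ V n ∧ y n ∈ (vorOn (closure O) d' (V n)).H (x n)) →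
                  (∀ n, IsEdges (closure O) d' (V n) (e n)) →
                  (∀ T : ℝ, 0 < T → ∀ F : BoundedContinuousFunction C(Icc (0 : ℝ) T, ℂ) ℝ,
                    Tendsto (fun n => walkExp ((vorOn (closure O) d' (V n)).step O)
                        (⌈t n * T⌉₊ + 1) (x n) fun w => F (toC T (interpE (e n) (t n) w))) atTop
                      (𝓝 (∫ b, F (toC T (lbmPath b (A b) O)) ∂Px W z))) ∧
                  (O ≠ univ → ∀ N : ℕ → ℕ, Tendsto (fun n => (N n : ℝ) / t n) atTop atTop →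
                    ∀ F : BoundedContinuousFunction (BoundedContinuousFunction ℝ≥0 ℂ) ℝ,
                      Tendsto (fun n => walkExp ((vorOn (closure O) d' (V n)).step O) (N n) (x n)
                          fun w => F (toB (interpE (e n) (t n) w))) atTop
                        (𝓝 (∫ b, F (toB (lbmPath b (A b) O)) ∂Px W z))) := by
  obtain ⟨L⟩ := exists_layers
  obtain ⟨τ, h0, h1⟩ := Fin.main_aut ⟨L, γ, ξ, hγ, hγ2, hξ, D, μ, hD, hμ⟩
  refine ⟨τ, h0, fun Ω _ P _ h f O d m Y hc hY l hl => ?_⟩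
  obtain ⟨φ, hφ, c⟩ := h1 Ω P h f O d m Y hc hY l hl
  refine ⟨φ, hφ, c.mono fun ω c ψ d' m' V t hψ hd hm hV ht W hW => ?_⟩
  obtain rfl : V = _ := funext hV
  obtain rfl : t = _ := funext ht
  subst hm
  obtain ⟨c1, c2, c3, c4, c5⟩ := c ψ hψ d' hd
  refine ⟨c4 W hW, fun A hA z hz y x e hy hx he => ?_⟩
  obtain ⟨p1, p2⟩ := c5 W hW A hA z hz y x hy hx
  have := hW.prob_Px z
  have hS := fun n y hy => (Fin.step_map (O := O) (d := d') (d' := d') Function.injective_id (c2 n)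
    (fun _ _ _ _ => rfl) (y := y) hy).1
  exact ⟨Fin.pathConv_edges p1 c3 isClosed_closure c1 c2 hS (hx.mono fun _ a => a.1) he,
    fun hO => (p2 hO).edges c3 isClosed_closure c1 c2 hS (hx.mono fun _ a => a.1) he⟩

end Pool.Agent.Results.MP_0d9445_pr.VoronoiLBM
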